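import Mathlib
import Pool.Agent.Results.MP_86fe4b_lc.EquationalTheory
import Pool.Agent.Y617.MO.Red

/-!
Two variables are enough: equations in two variables over the algebra of all binary relations on a
countably infinite set.
-/

set_option autoImplicit false

universe u

namespace Pool.Agent.Y617.IS

open Pool.Agent.Results.MP_86fe4b_lc.EquationalTheory

/-- Substitution of terms for variables. -/
def subst (σ : ℕ → Term) : Term → Term
  | .var i => σ i
  | .imp s t => .imp (subst σ s) (subst σ t)
  | .comp s t => .comp (subst σ s) (subst σ t)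

theorem eval_subst {S : Type u} (I C : S → S → S) (v : ℕ → S) (σ : ℕ → Term) (t : Term) :
    (subst σ t).eval I C v = t.eval I C (fun i => (σ i).eval I C v) := by
  induction t with
  | var i => rfl
  | imp s t ihs iht => simp only [subst, Term.eval, ihs, iht]
  | comp s t ihs iht => simp only [subst, Term.eval, ihs, iht]

theorem valid_subst (σ : ℕ → Term) {s t : Term} (h : Valid.{u} s t) :
    Valid.{u} (subst σ s) (subst σ t) := by
  intro S I C hrep v
  rw [eval_subst, eval_subst]
  exact h S I C hrep _

/-- The term uses no variables besides the two variables number `0` and `1`. -/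
def Binary : Term → Prop
  | .var i => i < 2
  | .imp s t => Binary s ∧ Binary t
  | .comp s t => Binary s ∧ Binary t

theorem binary_subst {σ : ℕ → Term} (hσ : ∀ i, Binary (σ i)) (t : Term) : Binary (subst σ t) := by
  induction t with
  | var i => exact hσ i
  | imp s t ihs iht => exact ⟨ihs, iht⟩
  | comp s t ihs iht => exact ⟨ihs, iht⟩

/-! ### The code words -/

/-- The code word of a letter, without its last letter. -/
def pre (i : ℕ) : List ℕ := [1, 1, 1] ++ ((List.range i).flatMap (fun _ => [0, 1]) ++ [0, 1])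

/-- The code word of a letter. -/
def cw (i : ℕ) : List ℕ := pre i ++ [1]

/-- The term substituted for a letter. -/
def sg (i : ℕ) : Term := if i = 0 then .comp (.var 0) (.var 0) else tw (pre i) 1

theorem binary_tw (w : List ℕ) (last : ℕ) (hw : ∀ a ∈ w, a < 2) (hl : last < 2) :
    Binary (tw w last) := by
  induction w with
  | nil => exact hl
  | cons a w ih => exact ⟨hw a (by simp), ih (fun b hb => hw b (by simp [hb]))⟩

theorem binary_sg (i : ℕ) : Binary (sg i) := by
  unfold sg
  split
  · exact ⟨by simp [Binary], by simp [Binary]⟩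
  · refine binary_tw _ _ ?_ (by norm_num)
    intro a ha
    simp only [pre, List.mem_append, List.mem_cons, List.not_mem_nil, or_false,
      List.mem_flatMap] at ha
    rcases ha with h | ⟨_, h⟩ | h
    · omega
    · rcases h with ⟨_, h | h⟩ <;> omega
    · omega

/-- The phases of reading a code word. -/
inductive Ph : Type
  | i0 : Ph
  | p1 : Ph
  | p2 : Ph
  | p3 : Ph
  | x (k : ℕ) : Ph
  | y (k : ℕ) : Ph

instance : Countable Ph := by
  refine Function.Injective.countable (f := fun p : Ph => (match p with
    | .i0 => (0, 0)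
    | .p1 => (1, 0)
    | .p2 => (2, 0)
    | .p3 => (3, 0)
    | .x k => (4, k)
    | .y k => (5, k) : ℕ × ℕ)) ?_
  intro a b h
  cases a <;> cases b <;> simp_all

instance : Infinite Ph :=
  Infinite.of_injective (fun k : ℕ => Ph.x k) (fun a b h => by injection h)

/-- Reading one letter. -/
def stp {Y : Type} (g : ℕ → Y → Y) : ℕ → Y × Ph → Option (Y × Ph)
  | 0, (s, .p3) => some (s, .x 0)
  | 0, (s, .y k) => some (s, .x (k + 1))
  | 1, (s, .i0) => some (s, .p1)
  | 1, (s, .p1) => some (s, .p2)
  | 1, (s, .p2) => some (s, .p3)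
  | 1, (s, .x k) => some (s, .y k)
  | 1, (s, .y k) => some (g k s, .i0)
  | _, _ => none

/-- Reading a word. -/
def prun {S : Type} (f : ℕ → S → Option S) : List ℕ → S → Option S
  | [], s => some s
  | a :: w, s => (f a s).bind (prun f w)

theorem prun_append {S : Type} (f : ℕ → S → Option S) (w w' : List ℕ) (s : S) :
    prun f (w ++ w') s = (prun f w s).bind (prun f w') := by
  induction w generalizing s with
  | nil => simp [prun]
  | cons a w ih =>
    simp only [List.cons_append, prun, Option.bind_assoc]
    congr 1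
    funext s'
    exact ih s'

theorem prun_mid {Y : Type} (g : ℕ → Y → Y) (s : Y) (n : ℕ) :
    prun (stp g) ((List.range n).flatMap (fun _ => [0, 1]) ++ [0, 1]) (s, .p3) =
      some (s, .y n) := by
  induction n with
  | zero => simp [prun, stp]
  | succ n ih =>
    rw [List.range_succ, List.flatMap_append]
    simp only [List.flatMap_cons, List.flatMap_nil, List.append_nil]
    rw [prun_append, ih]
    simp [prun, stp]

theorem prun_cw {Y : Type} (g : ℕ → Y → Y) (s : Y) (n : ℕ) :
    prun (stp g) (cw n) (s, .i0) = some (g n s, .i0) := by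
  rw [cw, pre, prun_append, prun_append]
  have h1 : prun (stp g) [1, 1, 1] (s, .i0) = some (s, .p3) := by simp [prun, stp]
  rw [h1, Option.bind_some, prun_mid]
  simp [prun, stp]

theorem cw_eq (n : ℕ) : ∃ r, cw n = 1 :: 1 :: 1 :: 0 :: r := by
  cases n with
  | zero => exact ⟨[1, 1], rfl⟩
  | succ n =>
    rw [cw, pre, List.range_succ_eq_map]
    exact ⟨_, rfl⟩

theorem prun_cw_none {Y : Type} (g : ℕ → Y → Y) (s : Y) (q : Ph) (hq : q ≠ .i0) (n : ℕ) :
    prun (stp g) (cw n) (s, q) = none := by
  obtain ⟨r, hr⟩ := cw_eq n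
  rw [hr]
  cases q <;> simp_all [prun, stp]

/-! ### The relations -/

section rel

variable {Y : Type} {X : Type u} (g : ℕ → Y → Y) (e : Y × Ph ≃ X)

/-- The valuation of the two variables. -/
def val (i : ℕ) : Set (X × X) := {p | stp g i (e.symm p.1) = some (e.symm p.2)}

theorem mem_relOf_val (w : List ℕ) (p : X × X) :
    p ∈ relOf (val g e) w ↔ prun (stp g) w (e.symm p.1) = some (e.symm p.2) := by
  induction w generalizing p with
  | nil => simp [relOf, prun]
  | cons a w ih =>
    simp only [relOf, relComp, prun, Set.mem_ofPred_eq, Option.bind_eq_some_iff]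
    constructor
    · rintro ⟨m, h₁, h₂⟩
      exact ⟨e.symm m, h₁, (ih _).1 h₂⟩
    · rintro ⟨m, h₁, h₂⟩
      refine ⟨e m, ?_, (ih _).2 ?_⟩
      · simpa [val] using h₁
      · simpa using h₂

/-- The valuation of the letters. -/
def lval (i : ℕ) : Set (X × X) := (sg i).eval (relImp Set.univ) relComp (val g e)

theorem lval_zero : lval g e 0 = ∅ := by
  simp only [lval, sg, if_true, Term.eval]
  rw [Set.eq_empty_iff_forall_notMem]
  rintro ⟨a, b⟩ ⟨m, h₁, h₂⟩
  simp only [val, Set.mem_ofPred_eq] at h₁ h₂
  rcases ha : e.symm a with ⟨s, q⟩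
  rw [ha] at h₁
  rcases q with _ | _ | _ | _ | k | k
  all_goals first
    | (simp only [stp] at h₁; cases h₁; done)
    | (simp only [stp, Option.some.injEq] at h₁
       rw [← h₁] at h₂
       simp only [stp] at h₂
       cases h₂)

theorem mem_lval {i : ℕ} (hi : i ≠ 0) (p : X × X) :
    p ∈ lval g e i ↔ ∃ y, e.symm p.1 = (y, .i0) ∧ e.symm p.2 = (g i y, .i0) := by
  rw [lval, sg, if_neg hi, eval_tw, mem_relOf_val]
  change prun (stp g) (cw i) _ = _ ↔ _
  rcases h1 : e.symm p.1 with ⟨s, q⟩
  by_cases hq : q = .i0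
  · subst hq
    rw [prun_cw, Option.some.injEq]
    constructor
    · intro h
      exact ⟨s, rfl, h.symm⟩
    · rintro ⟨y, h2, h3⟩
      injection h2 with h2 _
      rw [h3, h2]
  · rw [prun_cw_none g s q hq]
    constructor
    · intro h
      cases h
    · rintro ⟨y, h2, _⟩
      injection h2 with _ h2
      exact absurd h2 hq

theorem mem_relOf_lval (w : List ℕ) (hw : w ≠ []) (hw0 : ∀ a ∈ w, a ≠ 0) (p : X × X) :
    p ∈ relOf (lval g e) w ↔ ∃ y, e.symm p.1 = (y, .i0) ∧ e.symm p.2 = (run g w y, .i0) := by
  induction w generalizing p with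
  | nil => exact absurd rfl hw
  | cons a w ih =>
    rcases w with _ | ⟨b, w⟩
    · have : relOf (lval g e) [a] = lval g e a := relComp_id _
      rw [this, mem_lval g e (hw0 a (by simp))]
      rfl
    · have ih' := ih (by simp) (fun c hc => hw0 c (by simp [hc]))
      have h0 : relOf (lval g e) (a :: b :: w) = relComp (lval g e a)
        (relOf (lval g e) (b :: w)) := rfl
      rw [h0]
      constructor
      · rintro ⟨m, h₁, h₂⟩
        obtain ⟨y, h3, h4⟩ := (mem_lval g e (hw0 a (by simp)) _).1 h₁
        obtain ⟨y', h5, h6⟩ := (ih' _).1 h₂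
        simp only at h3 h4 h5 h6
        refine ⟨y, h3, ?_⟩
        rw [h4] at h5
        injection h5 with h5 _
        rw [h6, ← h5]
        rfl
      · rintro ⟨y, h3, h4⟩
        refine ⟨e (g a y, .i0), (mem_lval g e (hw0 a (by simp)) _).2 ⟨y, h3, ?_⟩,
          (ih' _).2 ⟨g a y, ?_, ?_⟩⟩
        · simp
        · simp
        · exact h4

theorem run_eq (R : List (List ℕ × List ℕ))
    (hR : ∀ p ∈ R, p.1 ≠ [] ∧ p.2 ≠ []) (hR0 : ∀ p ∈ R, (∀ a ∈ p.1, a ≠ 0) ∧ (∀ a ∈ p.2, a ≠ 0))
    (hact : ∀ p ∈ R, ∀ y, run g p.1 y = run g p.2 y)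
    (w w' : List ℕ) (a a' : ℕ) (hw : ∀ b ∈ w ++ [a], b ≠ 0) (hw' : ∀ b ∈ w' ++ [a'], b ≠ 0)
    (h : (subst sg (lhs R w a)).eval (relImp Set.univ) relComp (val g e) =
      (subst sg (lhs R w' a')).eval (relImp Set.univ) relComp (val g e)) (y : Y) :
    run g (w ++ [a]) y = run g (w' ++ [a']) y := by
  rw [eval_subst, eval_subst] at h
  change (lhs R w a).eval (relImp Set.univ) relComp (lval g e) =
    (lhs R w' a').eval (relImp Set.univ) relComp (lval g e) at h
  have hT : TransRel (Set.univ : Set (X × X)) := fun _ _ _ _ _ => trivial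
  have hv : ∀ i, lval g e i ⊆ Set.univ := fun i => Set.subset_univ _
  simp only [lhs, eval_join hT hv, eval_tw] at h
  have hJ : (jterm R).eval (relImp Set.univ) relComp (lval g e) = ∅ := by
    rw [Set.eq_empty_iff_forall_notMem]
    rintro ⟨x, z⟩ hxz
    rw [mem_jterm hT hv] at hxz
    obtain ⟨x', y', _, h₂, _⟩ := hxz
    rw [mem_dterm hT hv R hR] at h₂
    rcases h₂ with h₂ | ⟨p, hp, h₂⟩
    · rw [lval_zero] at h₂
      exact h₂
    · have e1 := mem_relOf_lval g e p.1 (hR p hp).1 (hR0 p hp).1 (x', y')
      have e2 := mem_relOf_lval g e p.2 (hR p hp).2 (hR0 p hp).2 (x', y')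
      simp only [hact p hp] at e1
      have e3 := e1.trans e2.symm
      rcases h₂ with ⟨h₃, h₄⟩ | ⟨h₃, h₄⟩
      · exact h₄ (e3.1 h₃)
      · exact h₄ (e3.2 h₃)
  rw [hJ, Set.union_empty, Set.union_empty] at h
  have h2 : ((e (y, .i0), e (run g (w ++ [a]) y, .i0)) : X × X) ∈ relOf (lval g e) (w ++ [a]) :=
    (mem_relOf_lval g e _ (by simp) hw _).2 ⟨y, by simp, by simp⟩
  rw [h] at h2
  obtain ⟨y', h3, h4⟩ := (mem_relOf_lval g e _ (by simp) hw' _).1 h2
  simp only [Equiv.symm_apply_apply, Prod.mk.injEq, and_true] at h3 h4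
  rw [h4, h3]

end rel

/-! ### Countable models -/

/-- If the equation holds in the algebra of all binary relations on a countably infinite set, then
the two words act in the same way on a given point. -/
theorem run_eq_of_nat {Y : Type} (act : ℕ → Y → Y) (R : List (List ℕ × List ℕ))
    (hR : ∀ p ∈ R, p.1 ≠ [] ∧ p.2 ≠ []) (hR0 : ∀ p ∈ R, (∀ a ∈ p.1, a ≠ 0) ∧ (∀ a ∈ p.2, a ≠ 0))
    (hact : ∀ p ∈ R, ∀ y, run act p.1 y = run act p.2 y)
    (w w' : List ℕ) (a a' : ℕ) (hw : ∀ b ∈ w ++ [a], b ≠ 0) (hw' : ∀ b ∈ w' ++ [a'], b ≠ 0)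
    (h : ∀ v : ℕ → Set (ULift.{u} ℕ × ULift.{u} ℕ),
      (subst sg (lhs R w a)).eval (relImp Set.univ) relComp v =
        (subst sg (lhs R w' a')).eval (relImp Set.univ) relComp v) (y0 : Y) :
    run act (w ++ [a]) y0 = run act (w' ++ [a']) y0 := by
  let Y0 : Set Y := Set.range (fun w : List ℕ => run act w y0)
  have hcl : ∀ i, ∀ y ∈ Y0, act i y ∈ Y0 := by
    rintro i _ ⟨w, rfl⟩
    exact ⟨w ++ [i], by simp [run]⟩
  let g : ℕ → Y0 → Y0 := fun i y => ⟨act i y.1, hcl i y.1 y.2⟩
  have hrun : ∀ (w : List ℕ) (y : Y0), (run g w y).1 = run act w y.1 := by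
    intro w
    induction w with
    | nil => intro y; rfl
    | cons b w ih =>
      intro y
      exact ih (g b y)
  have hc : Countable Y0 := Set.countable_range _
  have hne : Nonempty Y0 := ⟨⟨y0, [], rfl⟩⟩
  have hinf : Infinite (Y0 × Ph) := inferInstance
  obtain ⟨e⟩ : Nonempty (Y0 × Ph ≃ ULift.{u} ℕ) := nonempty_equiv_of_countable
  have h1 := run_eq g e R hR hR0 (fun p hp y => Subtype.ext (by rw [hrun, hrun, hact p hp]))
    w w' a a' hw hw' (h _) ⟨y0, [], rfl⟩
  have h2 := congrArg Subtype.val h1
  rwa [hrun, hrun] at h2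

open Turing StateTransition

theorem main_reduction {Γ Λ : Type} [Inhabited Γ] [Inhabited Λ] [Finite Γ] [Finite Λ]
    (M : TM0.Machine Γ Λ) :
    ∃ (e : Ltr Γ Λ → ℕ) (R : List (List ℕ × List ℕ)), (∀ x, e x ≠ 0) ∧ ∀ l : List Γ,
      ((eval (TM0.step M) (TM0.init l)).Dom → Valid.{u}
        (subst sg (lhs R (e (.inl none) :: e (.inr (some default)) ::
          l.map (fun a => e (.inl (some a)))) (e (.inl none))))
        (subst sg (lhs R [] (e (.inr none))))) ∧
      ((∀ v : ℕ → Set (ULift.{u} ℕ × ULift.{u} ℕ),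
        (subst sg (lhs R (e (.inl none) :: e (.inr (some default)) ::
          l.map (fun a => e (.inl (some a)))) (e (.inl none)))).eval
            (relImp Set.univ) relComp v =
        (subst sg (lhs R [] (e (.inr none)))).eval (relImp Set.univ) relComp v) →
        (eval (TM0.step M) (TM0.init l)).Dom) := by
  obtain ⟨e0, he0⟩ := Countable.exists_injective_nat (Ltr Γ Λ)
  let e : Ltr Γ Λ → ℕ := fun x => e0 x + 1
  have he : Function.Injective e := fun a b h => he0 (by simpa [e] using h)
  have hne : ∀ x, e x ≠ 0 := fun x => by simp [e]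
  obtain ⟨R, hR⟩ := exists_rules M e
  have hRnil : ∀ p ∈ R, p.1 ≠ [] ∧ p.2 ≠ [] := by
    intro p hp
    obtain ⟨l, r, h, rfl⟩ := (hR p).1 hp
    simpa using h.ne_nil
  have hR0 : ∀ p ∈ R, (∀ a ∈ p.1, a ≠ 0) ∧ (∀ a ∈ p.2, a ≠ 0) := by
    intro p hp
    obtain ⟨l, r, h, rfl⟩ := (hR p).1 hp
    simp only [List.mem_map, forall_exists_index, and_imp, forall_apply_eq_imp_iff₂]
    exact ⟨fun a _ => hne a, fun a _ => hne a⟩
  refine ⟨e, R, hne, fun l => ?_⟩
  have hword : ((Sum.inl none :: Sum.inr (some default) ::
      (l.map (fun a => Sum.inl (some a)) ++ [Sum.inl none]) : List (Ltr Γ Λ)).map e) =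
      (e (.inl none) :: e (.inr (some default)) :: l.map (fun a => e (.inl (some a)))) ++
        [e (.inl none)] := by
    simp [Function.comp_def]
  constructor
  · intro h
    apply valid_subst
    apply valid_of_der R hRnil
    have h1 := derive (M := M) (e := e) (R := R) (fun l r h => (hR _).2 ⟨l, r, h, rfl⟩) h [] l rfl
    have h2 : (W [] (some (TM0.init (Γ := Γ) (Λ := Λ) l).q) l : List (Ltr Γ Λ)) =
        Sum.inl none :: Sum.inr (some default) ::
          (l.map (fun a => Sum.inl (some a)) ++ [Sum.inl none]) := by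
      simp [W, TM0.init]
    rw [h2] at h1
    unfold E at h1
    rw [hword] at h1
    exact h1
  · intro h
    have h1 := run_eq_of_nat.{u} (Y := Sp Γ) (Function.extend e (actL M) (fun _ => id)) R
      hRnil hR0 (by
        intro p hp y
        obtain ⟨l, r, h, rfl⟩ := (hR p).1 hp
        rw [run_map e he, run_map e he]
        exact h.act y) _ _ _ _ (by
        rw [← hword]
        intro b hb
        obtain ⟨x, _, rfl⟩ := List.mem_map.1 hb
        exact hne x) (by simp [hne]) h (some (.inl []))
    rw [← hword, run_map e he] at h1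
    have h2 : ([] ++ [e (.inr none)] : List ℕ) = ([.inr none] : List (Ltr Γ Λ)).map e := rfl
    rw [h2, run_map e he] at h1
    rw [foldl_init] at h1
    have h3 : Hlt M [none] (some default) (l.map some ++ none :: []) = Hlt M [] none [] :=
      congrArg (fun y : Sp Γ => match y with
        | some (.inr φ) => φ []
        | _ => False) h1
    unfold Hlt at h3
    rw [LB_eq] at h3
    simp only [eq_iff_iff, iff_true] at h3
    exact h3

/-! ### Codes -/

theorem code_sg {i : ℕ} (hi : i ≠ 0) :
    (sg i).code = (pre i).flatMap (fun x => [1, x + 2]) ++ [3] := by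
  rw [sg, if_neg hi, code_tw]

theorem primrec_code : Primrec (fun i : ℕ => (pre i).flatMap (fun x => [1, x + 2]) ++ [3]) := by
  have hpre : Primrec pre := by
    refine Primrec.list_append.comp (Primrec.const _) ?_
    refine Primrec.list_append.comp ?_ (Primrec.const _)
    exact Primrec.list_flatMap Primrec.list_range (Primrec.const _).to₂
  refine Primrec.list_append.comp (Primrec.list_flatMap hpre ?_) (Primrec.const _)
  have : Primrec (fun x : ℕ => [1, x + 2]) := by
    refine Primrec.list_cons.comp (Primrec.const _) ?_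
    refine Primrec.list_cons.comp ?_ (Primrec.const _)
    exact Primrec.nat_add.comp Primrec.id (Primrec.const 2)
  exact this.comp Primrec.snd

theorem code_subst_tw (w : List ℕ) (last : ℕ) (hw : ∀ a ∈ w, a ≠ 0) :
    (subst sg (tw w last)).code =
      w.flatMap (fun x => 1 :: ((pre x).flatMap (fun x => [1, x + 2]) ++ [3])) ++
        (sg last).code := by
  induction w with
  | nil => rfl
  | cons x w ih =>
    have h1 : subst sg (tw (x :: w) last) = .comp (sg x) (subst sg (tw w last)) := rfl
    rw [h1, Term.code, ih (fun a ha => hw a (by simp [ha])), code_sg (hw x (by simp))]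
    simp

open Pool.Agent.Helper147.Univ in
/-- The reduction of an arbitrary recursively enumerable set. -/
theorem main : ∃ t : Term, Binary t ∧ ∀ P : ℕ → Prop, REPred P →
    ∃ s : ℕ → Term, Computable (fun n => (s n).code) ∧ (∀ n, Binary (s n)) ∧
      ∀ n, (P n → Valid.{u} (s n) t) ∧
        ((∀ v : ℕ → Set (ULift.{u} ℕ × ULift.{u} ℕ),
          (s n).eval (relImp Set.univ) relComp v = t.eval (relImp Set.univ) relComp v) → P n) := by
  obtain ⟨Λ, i1, i2, M, hM⟩ := exists_machine
  have fK : Finite PartrecToTM2.K' := by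
    refine Finite.of_injective (fun k : PartrecToTM2.K' => match k with
      | .main => (0 : Fin 4)
      | .rev => 1
      | .aux => 2
      | .stack => 3) ?_
    intro a b h
    cases a <;> cases b <;> simp_all
  have fG : Finite (TM2to1.Γ' PartrecToTM2.K' (fun _ => PartrecToTM2.Γ')) :=
    inferInstanceAs (Finite (Bool × (PartrecToTM2.K' → Option PartrecToTM2.Γ')))
  obtain ⟨e, R, hne, hred⟩ := main_reduction.{u} M
  let κ : PartrecToTM2.Γ' → ℕ := fun a => e (.inl (some (sym false a)))
  let w : ℕ → List ℕ := fun n => e (.inl none) :: e (.inr (some default)) ::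
    e (.inl (some (sym true .cons))) :: ((PartrecToTM2.trNat n).map κ).reverse
  have hw0 : ∀ n, ∀ a ∈ w n, a ≠ 0 := by
    intro n a ha
    simp only [w, List.mem_cons, List.mem_reverse, List.mem_map] at ha
    rcases ha with rfl | rfl | rfl | ⟨b, _, rfl⟩ <;> exact hne _
  let t0 : Term := subst sg (lhs R [] (e (.inr none)))
  let J : List ℕ := (subst sg (jterm R)).code
  let s0 : ℕ → Term := fun n => subst sg (lhs R (w n) (e (.inl none)))
  have hwc : Computable w := by
    refine Computable.list_cons.comp (Computable.const _) ?_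
    refine Computable.list_cons.comp (Computable.const _) ?_
    refine Computable.list_cons.comp (Computable.const _) ?_
    exact Computable.list_reverse.comp (digits_computable κ)
  have hs0 : Computable (fun n => (s0 n).code) := by
    have h1 : ∀ n, (s0 n).code = 0 :: ((0 :: (((w n).flatMap
        (fun x => 1 :: ((pre x).flatMap (fun x => [1, x + 2]) ++ [3])) ++
          (sg (e (.inl none))).code) ++ J)) ++ J) := by
      intro n
      simp only [s0, lhs, join, subst, Term.code, J]
      rw [code_subst_tw _ _ (hw0 n)]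
    have hfm : Computable (fun l : List ℕ => l.flatMap
        (fun x => 1 :: ((pre x).flatMap (fun x => [1, x + 2]) ++ [3]))) := by
      apply Primrec.to_comp
      refine Primrec.list_flatMap Primrec.id ?_
      exact (Primrec.list_cons.comp (Primrec.const 1) primrec_code).comp Primrec.snd
    have h2 : Computable (fun n => 0 :: ((0 :: (((w n).flatMap
        (fun x => 1 :: ((pre x).flatMap (fun x => [1, x + 2]) ++ [3])) ++
          (sg (e (.inl none))).code) ++ J)) ++ J)) := by
      refine Computable.list_cons.comp (Computable.const _) ?_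
      refine Computable.list_append.comp ?_ (Computable.const _)
      refine Computable.list_cons.comp (Computable.const _) ?_
      refine Computable.list_append.comp ?_ (Computable.const _)
      refine Computable.list_append.comp ?_ (Computable.const _)
      exact hfm.comp hwc
    exact h2.of_eq (fun n => (h1 n).symm)
  have hcore : ∀ n, ((u n).Dom → Valid.{u} (s0 n) t0) ∧
      ((∀ v : ℕ → Set (ULift.{u} ℕ × ULift.{u} ℕ),
        (s0 n).eval (relImp Set.univ) relComp v = t0.eval (relImp Set.univ) relComp v) →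
        (u n).Dom) := by
    intro n
    have hwn : w n = e (.inl none) :: e (.inr (some default)) ::
        (sym true .cons :: (PartrecToTM2.trNat n).reverse.map (sym false)).map
          (fun a => e (.inl (some a))) := by
      simp [w, κ, List.map_reverse, Function.comp_def]
    have h1 := hred (sym true .cons :: (PartrecToTM2.trNat n).reverse.map (sym false))
    rw [hM n, ← hwn] at h1
    exact h1
  refine ⟨t0, binary_subst binary_sg _, fun P hP => ?_⟩
  obtain ⟨c, hc, hcP⟩ := MO.exists_codes hP
  have hen : Computable (fun n => Encodable.encode (c n)) := Computable.encode.comp hc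
  have hu : ∀ n, (u (Encodable.encode (c n))).Dom ↔ P n := by
    intro n
    rw [← hcP n]
    unfold Pool.Agent.Helper147.Univ.u
    rw [Denumerable.ofNat_encode]
  refine ⟨fun n => s0 (Encodable.encode (c n)), hs0.comp hen, fun n => binary_subst binary_sg _,
    fun n => ?_⟩
  have h1 := hcore (Encodable.encode (c n))
  rw [hu n] at h1
  exact h1

end Pool.Agent.Y617.IS
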